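import Pool.Agent.H17.BO.TargetsD
import Pool.Agent.H27.LV.Curve

/-!
# MP_70ba79_ag: heights of roots (row HTR of the board `bo_modules`)
-/

set_option autoImplicit false

namespace Pool.Agent.H59.BO

open MvPolynomial SC Pool.Agent.H27.LV Pool.Agent.H17.VG Pool.Agent.H17.BO

private lemma pole_one {k K : Type} [Field k] [Field K] [Algebra k K] (v : DV k K) (z : K) :
    poleOrder v (fun _ : Fin 1 => z) = (-(v.ord z)).toNat := by
  unfold poleOrder
  simp

private lemma loc {k K : Type} [Field k] [Field K] [Algebra k K] (v : DV k K) (N : ℕ)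
    (a : Fin N → K) (z : K) (h : z ^ N + ∑ i : Fin N, a i * z ^ (i : ℕ) = 0) :
    (-(v.ord z)).toNat ≤ ∑ i, (-(v.ord (a i))).toNat := by
  by_cases hz : 0 ≤ v.ord z
  · have : (-(v.ord z)).toNat = 0 := by omega
    rw [this]
    exact Nat.zero_le _
  push Not at hz
  have hz0 : z ≠ 0 := by
    rintro rfl
    rw [v.ord_zero] at hz
    exact lt_irrefl _ hz
  obtain ⟨m, hm⟩ : ∃ m : ℤ, v.ord z = -m := ⟨-v.ord z, by ring⟩
  have hm0 : 0 < m := by omega
  have hex : ∃ i, a i ≠ 0 ∧ v.ord (a i) ≤ -m := by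
    by_contra hcon
    push Not at hcon
    have hs : ∑ i : Fin N, a i * z ^ (i : ℕ) = -z ^ N := by linear_combination h
    have hs0 : ∑ i : Fin N, a i * z ^ (i : ℕ) ≠ 0 := by
      rw [hs]
      exact neg_ne_zero.mpr (pow_ne_zero _ hz0)
    have h1 := v.ord_sum_ge (n := -(N : ℤ) * m + 1) Finset.univ
      (fun i : Fin N => a i * z ^ (i : ℕ)) (fun i _ hi => by
        have hai : a i ≠ 0 := left_ne_zero_of_mul hi
        have h2 := hcon i hai
        rw [v.ord_mul _ _ hai (pow_ne_zero _ hz0), v.ord_pow, hm]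
        have h3 : (i : ℤ) + 1 ≤ N := by exact_mod_cast i.2
        nlinarith) hs0
    rw [hs, v.ord_neg, v.ord_pow, hm] at h1
    linarith
  obtain ⟨i, -, hi⟩ := hex
  have h2 : (-(v.ord (a i))).toNat ≤ ∑ i, (-(v.ord (a i))).toNat :=
    Finset.single_le_sum (f := fun i => (-(v.ord (a i))).toNat) (fun _ _ => Nat.zero_le _)
      (Finset.mem_univ i)
  omega

theorem pf_HTR : T_HTR := by
  intro k K _ _ _ _ _ _ htr N a z h
  unfold h1 deg
  have hfin : ∀ w : K, (Function.support fun v : DV k K => poleOrder v fun _ : Fin 1 => w).Finite :=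
    fun w => pfi k K htr (Fin 1) _
  have hc : ∑ i, ∑ᶠ v : DV k K, poleOrder v (fun _ : Fin 1 => a i) =
      ∑ᶠ v : DV k K, ∑ i, poleOrder v (fun _ : Fin 1 => a i) :=
    (finsum_sum_comm Finset.univ (fun (v : DV k K) i => poleOrder v (fun _ : Fin 1 => a i))
      fun i _ => hfin (a i)).symm
  rw [hc]
  refine finsum_le_finsum' (hfin z) ?_ ?_
  · refine (Set.finite_iUnion fun i : Fin N => hfin (a i)).subset ?_
    intro v hv
    rw [Function.mem_support] at hv
    obtain ⟨i, -, hi⟩ := Finset.exists_ne_zero_of_sum_ne_zero hv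
    exact Set.mem_iUnion.mpr ⟨i, hi⟩
  · intro v
    simp only [pole_one]
    exact loc v N a z h

end Pool.Agent.H59.BO
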